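import Pool.Agent.H225.EP4

/-!
# Exact patterns of consecutive almost twin primes, at integers with restricted digits

Let `b ≥ 2` be a base and let the digits of an integer `n < b^K` be restricted: the `i`-th digit belongs
to a set `A i`, where the sets `A i` are arbitrary, depend on the place `i < K`, and have the only
property that the number `∏ |A i|` of these integers is at least `e^{-δK} b^K`, where the constant
`δ > 0` does not depend on `b`.  Let `N` be an arbitrary base point up to a fixed power of `b^K`, and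
`m = N + n`.  We consider ALL patterns `H` of `k` elements in an interval `[0, c K^2]` such that the
product of the numbers `n + h` and `n + h + 2`, `h ∈ H`, has no fixed prime divisor: the length of the
pattern may be comparable to the expected mean distance of the twin primes near `m`.

The number of the `n` such that all `m + h`, `h ∈ H`, are first members of twin prime pairs is at most
`C V(H) ∏ |A i|`, with the sieve product `V(H)` of the pattern.  And for at least `κ V(H) ∏ |A i|` of the
`n` the integers `j` in `[m, m + c K^2]` for which neither `j` nor `j + 2` has a prime factor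
`p ≤ b^{K/r}` are EXACTLY the `m + h`, `h ∈ H`, and then both have at most `r` prime factors.  In
particular no other `j` in this interval is the first member of a twin prime pair.

If `4 ∣ b`, `4 ∣ N` and the last digit is fixed, `A 0 = {a}`, then the residues of the `k` consecutive
almost twin primes modulo `4` are those of the `a + h`: all patterns of residues modulo `4` (or modulo
any divisor of a power of `b`, by fixing more digits) are obtained, with all admissible gaps.

The method is a Brun–Hooley sieve with weights, whose level of distribution is obtained from the Fourier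
transform of the set of the integers with restricted digits at rationals (large sieve in blocks of
digits), see `Pool/Agent/Y816/PD`; the other places are excluded by the upper bound for the patterns with
`k + 1` elements and an average of the sieve products (`Pool/Agent/H225/EP4`).
-/

set_option autoImplicit false

namespace Pool.Agent.Results.MP_74f661_nt.ExactPatterns

open Finset Filter Polynomial

/-- The second number `m + 2`. -/
def w (m : ℕ) : ℕ := m + 2

/-- `H` is admissible: the product of the `n + h` and `w (n + h)`, `h ∈ H`, has no fixed prime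
divisor. -/
def Admissible (H : Finset ℕ) : Prop :=
  ∀ p : ℕ, p.Prime → ∃ n : ℕ, ∀ h ∈ H, ¬ p ∣ n + h ∧ ¬ p ∣ w (n + h)

open Classical in
/-- The number of the `n` modulo `p` for which `p` divides one of the `n + h` or `w (n + h)`,
`h ∈ H`. -/
noncomputable def nu (H : Finset ℕ) (p : ℕ) : ℕ :=
  ((range p).filter (fun n : ℕ => ∃ h ∈ H, p ∣ n + h ∨ p ∣ w (n + h))).card

/-- The product of `1 - nu p / p` over the primes `p ≤ x`. -/
noncomputable def V (H : Finset ℕ) (x : ℕ) : ℝ :=
  ∏ p ∈ (Icc 1 x).filter Nat.Prime, (1 - (nu H p : ℝ) / p)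

open Classical in
/-- The number of the `n < b ^ K` in `T` whose `i`-th digit in base `b` belongs to `A i` for all
`i < K`. -/
noncomputable def count (b K : ℕ) (A : ℕ → Finset ℕ) (T : Set ℕ) : ℕ :=
  ((range (b ^ K)).filter (fun n => (∀ i < K, n / b ^ i % b ∈ A i) ∧ n ∈ T)).card

/-- The number of choices of the digits. -/
noncomputable def choices (K : ℕ) (A : ℕ → Finset ℕ) : ℝ := ∏ i ∈ range K, ((A i).card : ℝ)

/-- All prime factors of `m` are larger than `z ^ (1 / r)`. -/
def Rough (r z m : ℕ) : Prop := ∀ p : ℕ, p.Prime → p ∣ m → z < p ^ r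

open Pool.Agent.Y816.PD (NA ND ND_sub)
open Pool.Agent.W123.RU.Poly (Sys)
open Pool.Agent.W182.PW (lin lin_eval)
open Pool.Agent.TH977.PW (sys_lin)
open Pool.Agent.H225.EP (VV nuV exactVT NTr AdmP QH)

/-- the leading coefficients -/
def al : Fin 2 → ℕ := ![1, 1]

/-- the constant terms -/
def be : Fin 2 → ℤ := ![0, 2]

/-- the values -/
def v : Fin 2 → ℕ → ℕ := ![fun m => m, w]

lemma al_pos (i : Fin 2) : 0 < al i := by
  fin_cases i <;> decide

lemma sys : Sys (fun i => lin (al i) (be i)) := by
  refine sys_lin al be al_pos (fun i => ?_) (fun i j _ h => ?_) (fun p hp => ?_)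
  · fin_cases i
    · exact isCoprime_one_left
    · exact isCoprime_one_left
  · fin_cases i <;> fin_cases j <;> simp [be] at h ⊢
  · have hp2 := hp.two_le
    by_cases h3 : p = 3
    · subst h3
      refine ⟨2, fun i hi => ?_⟩
      fin_cases i <;> norm_num [al, be] at hi
    · refine ⟨1, fun i hi => ?_⟩
      fin_cases i
      · have h1 : (p : ℤ) ∣ 1 := by simpa [al, be] using hi
        have h2 : p ∣ 1 := by exact_mod_cast h1
        exact hp.one_lt.ne' (Nat.dvd_one.1 h2)
      · have h1 : (p : ℤ) ∣ 3 := by
          have e : ((al 1 : ℕ) : ℤ) * ((1 : ℕ) : ℤ) + be 1 = 3 := by norm_num [al, be]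
          rw [← e]
          exact hi
        have h2 : p ∣ 3 := by exact_mod_cast h1
        exact h3 ((Nat.prime_dvd_prime_iff_eq hp Nat.prime_three).1 h2)

lemma hv (i : Fin 2) (m : ℕ) : ((lin (al i) (be i)).eval (m : ℤ)).natAbs = v i m := by
  fin_cases i
  · change ((lin 1 0).eval (m : ℤ)).natAbs = m
    rw [lin_eval]
    simp
  · change ((lin 1 (2)).eval (m : ℤ)).natAbs = w m
    rw [lin_eval]
    unfold w
    have e : ((1 : ℕ) : ℤ) * m + 2 = ((m + 2 : ℕ) : ℤ) := by
      push_cast
      ring
    rw [e, Int.natAbs_natCast]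

lemma ntr : NTr (fun i => lin (al i) (be i)) := by
  intro i i' a b hab h hadm
  have h0 := congrArg (fun P : ℤ[X] => P.eval 0) h
  simp only [eval_comp, eval_add, eval_X, eval_C, lin_eval] at h0
  have hcase : (b : ℤ) - a = 2 ∨ (b : ℤ) - a = -2 := by
    fin_cases i <;> fin_cases i' <;> simp [al, be] at h0 <;> omega
  obtain ⟨n, hn⟩ := hadm 3 Nat.prime_three
  have key : ∀ x ∈ ({a, b} : Finset ℕ), ¬ 3 ∣ n + x ∧ ¬ 3 ∣ n + x + 2 := by
    intro x hx
    constructor
    · intro hd
      refine hn ⟨x, hx, 0, ?_⟩
      change ((3 : ℕ) : ℤ) ∣ (lin 1 0).eval (((n + x : ℕ)) : ℤ)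
      rw [lin_eval]
      simpa using Int.natCast_dvd_natCast.2 hd
    · intro hd
      refine hn ⟨x, hx, 1, ?_⟩
      change ((3 : ℕ) : ℤ) ∣ (lin 1 2).eval (((n + x : ℕ)) : ℤ)
      rw [lin_eval]
      have h3 := Int.natCast_dvd_natCast.2 hd
      push_cast at h3 ⊢
      rw [one_mul]
      exact h3
  have ha := key a (by simp)
  have hb := key b (by simp)
  rcases hcase with h2 | h2 <;> omega

lemma hge (i : Fin 2) (m : ℕ) (_ : (v i m).Prime) : m ≤ v i m := by
  fin_cases i
  · exact le_rfl
  · change m ≤ w m
    unfold w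
    omega

lemma V_eq (H : Finset ℕ) (x : ℕ) : VV v H x = V H x := by
  classical
  unfold VV V nuV nu
  refine prod_congr rfl fun p _ => ?_
  have e : (range p).filter (fun n : ℕ => ∃ h ∈ H, ∃ i, p ∣ v i (n + h)) =
      (range p).filter (fun n : ℕ => ∃ h ∈ H, p ∣ n + h ∨ p ∣ w (n + h)) := by
    refine filter_congr fun n _ => exists_congr fun h => and_congr_right fun _ => ?_
    rw [Fin.exists_fin_two]
    rfl
  congr 3
  convert congrArg Finset.card e

/-- **Exact patterns of consecutive almost twin primes `m`, `m + 2` at integers with restricted digits,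
uniformly in all admissible patterns with `k` elements and diameter up to a small multiple of the
expected mean distance of the places.** -/
theorem result (k D : ℕ) (hk : 1 ≤ k) :
    ∃ δ : ℝ, 0 < δ ∧ ∃ r₀ : ℕ, 2 ≤ r₀ ∧ ∀ r : ℕ, r₀ ≤ r → ∀ b : ℕ, 2 ≤ b →
      ∃ κ C c : ℝ, 0 < κ ∧ 0 < C ∧ 0 < c ∧
      ∀ᶠ K : ℕ in atTop, ∀ N : ℕ, N ≤ b ^ (D * K) →
        ∀ H : Finset ℕ, H.card = k → (∀ h ∈ H, (h : ℝ) ≤ c * (K : ℝ) ^ 2) → Admissible H →
        ∀ A : ℕ → Finset ℕ, (∀ i < K, A i ⊆ range b) →
        (b : ℝ) ^ K ≤ Real.exp (δ * K) * choices K A →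
        κ / (K : ℝ) ^ (2 * k) ≤ V H (b ^ K) ∧
        ((∃ e ∈ A 0, ∀ h ∈ H, (N + e + h).Coprime b ∧ (w (N + e + h)).Coprime b) →
          (∃ e ∈ A (K - 1), e ≠ 0) →
          κ * choices K A * V H (b ^ K) ≤ count b K A {n | b ^ (K - 1) ≤ n ∧
            (∀ j : ℕ, (j : ℝ) ≤ c * (K : ℝ) ^ 2 →
              ((Rough r (b ^ K) (N + n + j) ∧ Rough r (b ^ K) (w (N + n + j))) ↔ j ∈ H)) ∧
            ∀ h ∈ H, (N + n + h).primeFactorsList.length ≤ r ∧
              (w (N + n + h)).primeFactorsList.length ≤ r}) ∧
        (count b K A {n | ∀ h ∈ H, (N + n + h).Prime ∧ (w (N + n + h)).Prime} : ℝ) ≤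
          C * choices K A * V H (b ^ K) := by
  obtain ⟨δ, hδ, r₀, hr₀, h⟩ := exactVT (by norm_num) (fun i => lin (al i) (be i)) sys
    ntr v hv hge k D hk
  refine ⟨δ, hδ, r₀, hr₀, fun r hr b hb => ?_⟩
  obtain ⟨κ, C, c, hκ, hC, hc, h1⟩ := h r hr b hb
  refine ⟨κ, C, c, hκ, hC, hc, ?_⟩
  filter_upwards [h1] with K hK N hN H hHk hHc hadm A hA hprod
  simp only [Fin.forall_fin_two] at hK
  obtain ⟨h2, h3, h4⟩ := hK N hN H hHk hHc hadm A hA hprod
  rw [V_eq] at h2 h3 h4
  refine ⟨h2, fun hcop htop => ?_, h4⟩
  exact h3 hcop htop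

end Pool.Agent.Results.MP_74f661_nt.ExactPatterns
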