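import Pool.Agent.V11146.MK.Transfer

/-!
# Residues modulo 4 of consecutive almost-prime twins

`S_z` is the set of the `n` such that neither `n` nor `n + 2` has a prime factor `≤ z`; it contains the first
member of every twin prime pair `(p, p + 2)` with `p > z`. For every `k` and `ε > 0` there are `K` and `z₀` such
that for all `z ≥ z₀` and ALL intervals `(Z, Z + Y]` with `Y ≥ z ^ K`, each of the `2 ^ (k + 1)` patterns of
residues modulo 4 of `k + 1` consecutive elements of `S_z` occurs with frequency `2 ^ (-k-1)`, up to `ε`. In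
particular (`k = 1`), the proportion, among the `n ≡ a (mod 4)` of `S_z` in the interval, of those whose
successor in `S_z` is `≡ b (mod 4)`, is `1 / 2` up to `ε`.
-/

set_option autoImplicit false

open Finset

namespace Pool.Agent.Results.MP_74f661_nt.RoughPairPatterns

/-- Neither `n` nor `n + 2` has a prime factor `≤ z`. -/
def RoughPair (z n : ℕ) : Prop := ∀ p : ℕ, p.Prime → p ≤ z → ¬ p ∣ n ∧ ¬ p ∣ n + 2

/-- `n 0 < n 1 < … < n k` are consecutive elements of `S`. -/
def Consecutive (S : ℕ → Prop) (k : ℕ) (n : ℕ → ℕ) : Prop :=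
  (∀ i ≤ k, S (n i)) ∧ ∀ i < k, n i < n (i + 1) ∧ ∀ m, n i < m → m < n (i + 1) → ¬ S m

open Classical in
/-- The number of the elements of `S_z` in `(Z, Z + Y]`. -/
noncomputable def total (z Z Y : ℕ) : ℕ := ((Ioc Z (Z + Y)).filter (RoughPair z)).card

open Classical in
/-- The number of the elements `g` of `S_z` in `(Z, Z + Y]` such that `g` and the `k` next elements of `S_z` are
congruent to `a 0, a 1, …, a k` modulo 4. -/
noncomputable def count (z k : ℕ) (a : ℕ → ℕ) (Z Y : ℕ) : ℕ :=
  ((Ioc Z (Z + Y)).filter (fun g => ∃ n : ℕ → ℕ, n 0 = g ∧ Consecutive (RoughPair z) k n ∧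
    ∀ i ≤ k, n i % 4 = a i)).card

open Pool.Agent.V11146.MK Pool.Agent.Y879.GL Pool.Agent.W123.RU.Poly Pool.Agent.TH464.PO in
lemma pattern : Pool.Agent.Y879.GL.Pat 3 6 5 ![0, 2] where
  hM := by norm_num
  hc := by norm_num
  hk := by norm_num
  hkP := by norm_num
  hpr := by
    intro p hp
    constructor
    · intro h
      have h1 : p ∣ 2 * 3 := by simpa using h
      rcases (Nat.Prime.dvd_mul hp).1 h1 with h2 | h2
      · have := (Nat.prime_dvd_prime_iff_eq hp Nat.prime_two).1 h2
        omega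
      · have := (Nat.prime_dvd_prime_iff_eq hp Nat.prime_three).1 h2
        omega
    · intro h
      have := hp.two_le
      interval_cases p
      · norm_num
      · norm_num
  cop := by
    intro i
    fin_cases i <;> simp <;> norm_num
  inj := by
    intro i j h
    fin_cases i <;> fin_cases j <;> simp_all
  dif := by
    intro i j hij p hp hp3 hd
    have h2 : (p : ℤ) ∣ 2 := by
      fin_cases i <;> fin_cases j <;> simp_all
    have h3 : p ∣ 2 := by exact_mod_cast h2
    have := Nat.le_of_dvd (by norm_num) h3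
    omega

lemma rough_iff (y n : ℕ) (hy : 3 ≤ y) : RoughPair y n ↔ Pool.Agent.Y879.GL.Rg 6 5 ![0, 2] y n := by
  unfold RoughPair Pool.Agent.Y879.GL.Rg
  constructor
  · intro h
    refine ⟨?_, ?_⟩
    · obtain ⟨h2, _⟩ := h 2 Nat.prime_two (by omega)
      obtain ⟨h3, h4⟩ := h 3 Nat.prime_three hy
      rw [Nat.dvd_iff_mod_eq_zero] at h2 h3 h4
      have h5 : n % 2 = 1 := by omega
      have h6 : n % 3 = 2 := by omega
      omega
    · intro p hp hpy i
      have := h p hp hpy
      fin_cases i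
      · simpa using this.1
      · simpa using this.2
  · rintro ⟨_, h⟩ p hp hpy
    exact ⟨by simpa using h p hp hpy 0, by simpa using h p hp hpy 1⟩

open Classical in
lemma main (k : ℕ) (ε : ℝ) (hε : 0 < ε) : ∃ K z₀ : ℕ, ∀ z : ℕ, z₀ ≤ z → ∀ Z Y : ℕ, z ^ K ≤ Y →
    0 < total z Z Y ∧ ∀ a : ℕ → ℕ, (∀ i ≤ k, a i = 1 ∨ a i = 3) →
      |(count z k a Z Y : ℝ) - total z Z Y / 2 ^ (k + 1)| ≤ ε * total z Z Y := by
  have H := pattern
  have hcard : (Pool.Agent.V11146.MK.cls (Pool.Agent.W123.RU.Poly.Q (Pool.Agent.Y879.GL.sy 6 5 ![0, 2])) 2).card = 2 := by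
    have h1 := Pool.Agent.V11146.MK.card_cls (Pool.Agent.W123.RU.Poly.Q (Pool.Agent.Y879.GL.sy 6 5 ![0, 2])) 2
    have h2 := Pool.Agent.Y879.GL.nu_small H 2 Nat.prime_two (by norm_num)
    omega
  obtain ⟨K, y0, h⟩ := Pool.Agent.V11146.MK.rel_pat (Pool.Agent.Y879.GL.sy 6 5 ![0, 2])
    (Pool.Agent.Y879.GL.sy_sys H) (Pool.Agent.Y879.GL.sy_noTr H (by intro i; fin_cases i <;> simp)) 2 k
    Nat.prime_two 6 5 (by norm_num) RoughPair 3
    (fun y hy n => (rough_iff y n hy).trans (Pool.Agent.Y879.GL.Rg_iff H y n)) (fun n => n % 4)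
    (fun a => if a = 1 then 0 else 1) {1, 3}
    (by
      intro b hb m
      simp only [mem_insert, mem_singleton] at hb
      rcases hb with rfl | rfl
      · simp only [if_true]
        omega
      · simp only [OfNat.ofNat_ne_one, if_false]
        omega)
    (by
      intro b hb
      rw [Pool.Agent.V11146.MK.mem_cls, Pool.Agent.Y879.GL.Q_iff]
      simp only [mem_insert, mem_singleton] at hb
      rcases hb with rfl | rfl
      · refine ⟨by norm_num, ?_⟩
        rintro ⟨i, hi⟩
        fin_cases i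
        · norm_num at hi
        · norm_num at hi
      · refine ⟨by norm_num, ?_⟩
        rintro ⟨i, hi⟩
        fin_cases i
        · norm_num at hi
        · norm_num at hi) ε hε
  refine ⟨K, max y0 5, ?_⟩
  intro z hz Z Y hY
  have hz5 : 5 ≤ z := (le_max_right _ _).trans hz
  obtain ⟨h1, h2⟩ := h z ((le_max_left _ _).trans hz) Z Y hY (Or.inr (fun h5 =>
    (h5 5 (by norm_num) hz5).1 (dvd_refl 5)))
  refine ⟨h1, ?_⟩
  intro a ha
  have h3 := h2 a (by
    intro i hi
    simp only [mem_insert, mem_singleton]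
    exact ha i hi)
  rw [hcard] at h3
  exact h3

/-- few prime factors -/
lemma few (z s N : ℕ) (hN : 0 < N) (hNz : N ≤ z ^ s) (h : ∀ p : ℕ, p.Prime → p ≤ z → ¬ p ∣ N) :
    N.primeFactorsList.length ≤ s := by
  by_contra hcon
  rw [not_le] at hcon
  have h1 : ∀ q ∈ N.primeFactorsList, z + 1 ≤ q := by
    intro q hq
    by_contra h2
    exact h q (Nat.prime_of_mem_primeFactorsList hq) (by omega) (Nat.dvd_of_mem_primeFactorsList hq)
  have h2 : (z + 1) ^ N.primeFactorsList.length ≤ N.primeFactorsList.prod := List.pow_card_le_prod _ _ h1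
  rw [Nat.prod_primeFactorsList hN.ne'] at h2
  have h3 : z ^ s < (z + 1) ^ N.primeFactorsList.length := by
    calc z ^ s ≤ (z + 1) ^ s := Nat.pow_le_pow_left (by omega) s
      _ < (z + 1) ^ N.primeFactorsList.length := Nat.pow_lt_pow_right (by
          rcases Nat.eq_zero_or_pos z with h4 | h4
          · exfalso
            subst h4
            rcases Nat.eq_zero_or_pos s with h5 | h5
            · subst h5
              have : N = 1 := by simp at hNz; omega
              rw [this] at hcon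
              simp at hcon
            · rw [Nat.zero_pow h5] at hNz
              omega
          · omega) hcon
  omega

/-- **Residue patterns of consecutive almost-prime twins.** -/
theorem result :
    -- the twin primes are elements of `S_z`
    (∀ z p : ℕ, p.Prime → (p + 2).Prime → z < p → RoughPair z p) ∧
    -- the elements of `S_z` are almost-prime twins
    (∀ z s n : ℕ, 0 < n → n + 2 ≤ z ^ s → RoughPair z n →
      n.primeFactorsList.length ≤ s ∧ (n + 2).primeFactorsList.length ≤ s) ∧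
    -- all residue patterns modulo 4 are equally frequent
    (∀ (k : ℕ) (ε : ℝ), 0 < ε → ∃ K z₀ : ℕ, ∀ z : ℕ, z₀ ≤ z → ∀ Z Y : ℕ, z ^ K ≤ Y →
      0 < total z Z Y ∧ ∀ a : ℕ → ℕ, (∀ i ≤ k, a i = 1 ∨ a i = 3) →
        |(count z k a Z Y : ℝ) - total z Z Y / 2 ^ (k + 1)| ≤ ε * total z Z Y) ∧
    -- the proportion of the elements `≡ a 0` whose successor is `≡ a 1`
    (∀ ε : ℝ, 0 < ε → ∃ K z₀ : ℕ, ∀ z : ℕ, z₀ ≤ z → ∀ Z Y : ℕ, z ^ K ≤ Y →
      ∀ a : ℕ → ℕ, (a 0 = 1 ∨ a 0 = 3) → (a 1 = 1 ∨ a 1 = 3) →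
        0 < count z 0 a Z Y ∧ |(count z 1 a Z Y : ℝ) / count z 0 a Z Y - 1 / 2| ≤ ε) := by
  refine ⟨?_, ?_, main, ?_⟩
  · intro z p hp hp2 hz q hq hqz
    constructor
    · intro h
      have := (Nat.prime_dvd_prime_iff_eq hq hp).1 h
      omega
    · intro h
      have := (Nat.prime_dvd_prime_iff_eq hq hp2).1 h
      omega
  · intro z s n hn hns h
    exact ⟨few z s n hn (by omega) (fun p hp hpz => (h p hp hpz).1),
      few z s (n + 2) (by omega) hns (fun p hp hpz => (h p hp hpz).2)⟩
  · intro ε hε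
    obtain ⟨e, he⟩ : ∃ e : ℝ, e = min (1 / 4) (ε / 8) := ⟨_, rfl⟩
    have he0 : 0 < e := by rw [he]; positivity
    have he1 : e ≤ 1 / 4 := by rw [he]; exact min_le_left _ _
    have he2 : e ≤ ε / 8 := by rw [he]; exact min_le_right _ _
    obtain ⟨K0, z0, h0⟩ := main 0 e he0
    obtain ⟨K1, z1, h1⟩ := main 1 e he0
    refine ⟨K0 + K1, z0 + z1 + 1, ?_⟩
    intro z hz Z Y hY a ha0 ha1
    have hz1 : 1 ≤ z := by omega
    obtain ⟨g1, g2⟩ := h0 z (by omega) Z Y ((Nat.pow_le_pow_right hz1 (by omega)).trans hY)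
    obtain ⟨_, g3⟩ := h1 z (by omega) Z Y ((Nat.pow_le_pow_right hz1 (by omega)).trans hY)
    have h3 := g2 a (by
      intro i hi
      have : i = 0 := by omega
      rw [this]
      exact ha0)
    have h4 := g3 a (by
      intro i hi
      have : i = 0 ∨ i = 1 := by omega
      rcases this with rfl | rfl
      · exact ha0
      · exact ha1)
    obtain ⟨t, ht⟩ : ∃ t : ℝ, t = total z Z Y := ⟨_, rfl⟩
    have ht0 : 0 < t := by
      rw [ht]
      exact_mod_cast g1
    rw [← ht] at h3 h4
    obtain ⟨c0, hc0⟩ : ∃ c : ℝ, c = count z 0 a Z Y := ⟨_, rfl⟩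
    obtain ⟨c1, hc1⟩ : ∃ c : ℝ, c = count z 1 a Z Y := ⟨_, rfl⟩
    rw [← hc0] at h3 ⊢
    rw [← hc1] at h4 ⊢
    norm_num at h3 h4
    rw [abs_le] at h3 h4
    have hc0pos : t / 4 ≤ c0 := by nlinarith [h3.1]
    have hc0pos' : 0 < c0 := by linarith
    refine ⟨?_, ?_⟩
    · rw [hc0] at hc0pos'
      exact_mod_cast hc0pos'
    · have e1 : c1 / c0 - 1 / 2 = (c1 - c0 / 2) / c0 := by
        field_simp
      rw [e1, abs_div, abs_of_pos hc0pos', div_le_iff₀ hc0pos']
      have e2 : |c1 - c0 / 2| ≤ 2 * e * t := by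
        rw [abs_le]
        constructor <;> linarith [h3.1, h3.2, h4.1, h4.2]
      refine e2.trans ?_
      calc 2 * e * t ≤ 2 * (ε / 8) * (4 * c0) := by
            apply mul_le_mul (by linarith) (by linarith) ht0.le (by positivity)
        _ = ε * c0 := by ring

end Pool.Agent.Results.MP_74f661_nt.RoughPairPatterns
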